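import Pool.Agent.W538.Hom.Comp

/-!
The homogeneity conjecture fails for weakly symmetric Riemannian manifolds. In the example, `X` is
the Riemannian product of the unit sphere `S³` of the quaternions and the line, `M` is the quotient
of `X` by the group generated by `(x, s) ↦ (i x, s + 4)`, and `Γ` is the cyclic group of order `4`
generated by the isometry of `M` induced by `(x, s) ↦ (x i, s)`.
-/

namespace Pool.Agent.Results.MP_590cbb_gt.NotHomogeneous

open Pool.Agent.W538.Hom Bundle Manifold
open scoped ContDiff

/-- The metric space `M` is a smooth Riemannian manifold modelled on the vector space `E`, with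
its Riemannian distance. -/
def IsRiemannian (E : Type) [NormedAddCommGroup E] [NormedSpace ℝ E] (M : Type)
    [MetricSpace M] : Prop :=
  ∃ (_ : ChartedSpace E M) (_ : IsManifold 𝓘(ℝ, E) ∞ M)
    (_ : RiemannianBundle (fun x : M => TangentSpace 𝓘(ℝ, E) x))
    (_ : IsContMDiffRiemannianBundle 𝓘(ℝ, E) ∞ E (fun x : M => TangentSpace 𝓘(ℝ, E) x)),
    IsRiemannianManifold 𝓘(ℝ, E) M

/-- There is a connected Riemannian manifold `X` of dimension `4` and a group `S` of isometries of
`X` acting freely and properly discontinuously such that the quotient `M` of `X` by `S` is compact,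
connected and weakly symmetric, and there is a group `Γ` of isometries of `M` acting freely and properly
discontinuously such that every element of `Γ` has constant displacement, but the quotient `Q` of
`M` by `Γ` is not homogeneous. -/
theorem result : ∃ (X M Q : Type) (_ : MetricSpace X) (_ : MetricSpace M) (_ : MetricSpace Q)
    (p : X → M) (q : M → Q) (S : Subgroup (X ≃ᵢ X)) (Γ : Subgroup (M ≃ᵢ M)),
    ConnectedSpace X ∧ IsRiemannian (EuclideanSpace ℝ (Fin 4)) X ∧ IsRiemannianCovering S p ∧
    CompactSpace M ∧ ConnectedSpace M ∧ WeaklySymmetric M ∧ IsRiemannianCovering Γ q ∧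
    (∀ γ ∈ Γ, ConstantDisplacement γ) ∧ ¬ Homogeneous Q := by
  refine ⟨XX, MM, QQ, inferInstance, inferInstance, inferInstance, proj Sig, proj Gam, Sig, Gam,
    inferInstance, ⟨inferInstance, inferInstance, Pool.Agent.W538.Sub.rb dX,
    Pool.Agent.W538.Sub.ccb dX, Pool.Agent.W538.Sub.isRiem dX⟩, isRiemannianCovering_proj cov_Sig,
    inferInstance, inferInstance, weaklySymmetric_MM, isRiemannianCovering_proj cov_Gam, fun γ hγ => constantDisplacement hγ,
    not_homogeneous⟩

end Pool.Agent.Results.MP_590cbb_gt.NotHomogeneous
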